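import Pool.Agent.Work.MP_223b32_tc.Interface

/-!
# Block ROOTS: from elements to polynomials
-/

namespace Pool.Agent.Work.TC

open Finset Polynomial

namespace ROOTS

variable {F K : Type} [Field F] [Fintype F] [Field K] [Fintype K] [Algebra F K]

omit [Fintype F] in
/-- A monic irreducible polynomial of degree `n = [K : F]` has `n` roots in `K`. -/
theorem card_roots {n : ℕ} (hfin : Module.finrank F K = n) {f : F[X]} (hf : f ∈ irr F n) :
    Nat.card {a : K // aeval a f = 0} = n := by
  obtain ⟨hm, hi, hd⟩ := hf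
  have : Fact (Irreducible f) := ⟨hi⟩
  have hf0 : f ≠ 0 := hi.ne_zero
  have h1 : Module.finrank F (AdjoinRoot f) = n := by
    rw [(AdjoinRoot.powerBasis hf0).finrank, AdjoinRoot.powerBasis_dim, hd]
  have h2 : Nat.card (AdjoinRoot f →ₐ[F] K) = n := by
    rw [FiniteField.natCard_algHom_of_finrank_dvd (by rw [h1, hfin]), h1]
  rw [← h2]
  refine Nat.card_congr ((Equiv.subtypeEquivRight fun a => ?_).trans (AdjoinRoot.equiv K F f hf0).symm)
  rw [mem_aroots]
  exact ⟨fun h => ⟨hf0, h⟩, fun h => h.2⟩

omit [Fintype F] in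
theorem minpoly_irr {n : ℕ} (hn : n.Prime) (hfin : Module.finrank F K = n) {a : K}
    (ha : a ∉ (algebraMap F K).range) : minpoly F a ∈ irr F n := by
  have hint : IsIntegral F a := Algebra.IsIntegral.isIntegral a
  refine ⟨minpoly.monic hint, minpoly.irreducible hint, ?_⟩
  have h1 : (minpoly F a).natDegree ∣ n := by
    rw [← hfin]
    exact minpoly.degree_dvd hint
  rcases (Nat.dvd_prime hn).1 h1 with h | h
  · exact absurd (minpoly.natDegree_eq_one_iff.1 h) ha
  · exact h

omit [Fintype F] [Fintype K] in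
theorem minpoly_eq {n : ℕ} {f : F[X]} (hf : f ∈ irr F n) {a : K} (ha : aeval a f = 0) :
    minpoly F a = f :=
  (minpoly.eq_of_irreducible_of_monic hf.2.1 ha hf.1).symm

omit [Fintype F] [Fintype K] in
theorem not_range {n : ℕ} (hn : n.Prime) {f : F[X]} (hf : f ∈ irr F n) {a : K}
    (ha : aeval a f = 0) : a ∉ (algebraMap F K).range := by
  intro h
  have h1 := minpoly.natDegree_eq_one_iff.2 h
  rw [minpoly_eq hf ha, hf.2.2] at h1
  exact hn.one_lt.ne' h1

end ROOTS

open ROOTS in
theorem stmt_ROOTS : Stmt_ROOTS := by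
  intro F K _ _ _ _ _ n hn hfin T P
  set B : Set (Fin T → F[X]) := {f | (∀ t, f t ∈ irr F n) ∧ P f} with hB
  let g : {a : Fin T → K // (∀ t, a t ∉ (algebraMap F K).range) ∧
      P fun t => minpoly F (a t)} → B :=
    fun a => ⟨fun t => minpoly F (a.1 t), fun t => minpoly_irr hn hfin (a.2.1 t), a.2.2⟩
  have hfib : ∀ y : B, Nat.card {x // g x = y} = n ^ T := by
    intro y
    have e : {x // g x = y} ≃ (∀ t : Fin T, {a : K // aeval a (y.1 t) = 0}) :=
      { toFun := fun x t => ⟨x.1.1 t, by
          have h := congrFun (congrArg Subtype.val x.2) t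
          have h' : minpoly F (x.1.1 t) = y.1 t := h
          rw [← h']
          exact minpoly.aeval F _⟩
        invFun := fun a => ⟨⟨fun t => (a t).1, fun t => not_range hn (y.2.1 t) (a t).2, by
          have h : (fun t => minpoly F (a t).1) = y.1 :=
            funext fun t => minpoly_eq (y.2.1 t) (a t).2
          rw [h]
          exact y.2.2⟩, Subtype.ext (funext fun t => minpoly_eq (y.2.1 t) (a t).2)⟩
        left_inv := fun x => rfl
        right_inv := fun a => rfl }
    rw [Nat.card_congr e, Nat.card_pi, Finset.prod_congr rfl fun t _ => card_roots hfin (y.2.1 t)]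
    simp
  have hsurj : Function.Surjective g := by
    intro y
    have h1 : 0 < Nat.card {x // g x = y} := by
      rw [hfib y]
      exact pow_pos hn.pos _
    obtain ⟨⟨x, hx⟩⟩ := (Nat.card_pos_iff.1 h1).1
    exact ⟨x, hx⟩
  have hfinB : Finite B := Finite.of_surjective g hsurj
  have := Fintype.ofFinite B
  rw [← Nat.card_congr (Equiv.sigmaFiberEquiv g), Nat.card_sigma, Finset.sum_congr rfl
    fun y _ => hfib y, Finset.sum_const, smul_eq_mul, Finset.card_univ, ← Nat.card_eq_fintype_card,
    Nat.card_coe_set_eq, mul_comm]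

end Pool.Agent.Work.TC
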